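import Pool.Agent.E8helper61.LK.GL
import Pool.Agent.E8helper52.LK.Rand
import Pool.Agent.E8helper83.LK.Asym

/-!
# Strong versus link chromatic numbers: growth of `x_{t,ℓ}` for fixed `t`

`IsBound t l x` (file `Pool/Agent/E8helper61/LK/Defs.lean`) says that for some constant `C` every
`t`-intersecting hypergraph `H` satisfies `χ(H, t + l) ≤ C * χ(H, t, l) ^ x`, where the value `0` of
`χ(H, t, l)` (no `t`-sets, or a single one) is read as `1`; the number `x_{t,l}` of the problem is
the least such `x`. For every fixed `t ≥ 1` we show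
`x_{t,l} ≥ c_t l ^ t / (log l) ^ (t + 1)`. The known bounds for fixed `t` are `Ω(1)` and `O(l ^ t)`,
so the exponent of `l` is determined.

Construction: random families of graphs of functions, any two of which meet in at least `t` points
while no `t` points lie on many of them.
-/

set_option autoImplicit false

namespace Pool.Agent.Results.MP_5b9121_co.PowerGrowthH61

open H61LK

/-- For every `t ≥ 1` there is `c > 0` with `x_{t,l} ≥ c l ^ t / (log l) ^ (t + 1)` for all
`l ≥ 2`. -/
theorem result (t : ℕ) (ht : 1 ≤ t) :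
    ∃ c : ℝ, 0 < c ∧ ∀ l : ℕ, 2 ≤ l → ∀ x : ℕ, IsBound t l x →
      c * (l : ℝ) ^ t / Real.log l ^ (t + 1) ≤ x :=
  t_ASYM t_GL t_RAND t ht

end Pool.Agent.Results.MP_5b9121_co.PowerGrowthH61
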