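import Pool.Agent.E8helper61.LK.GL
import Pool.Agent.E8helper61.LK.PG
import Pool.Agent.E8helper83.LK.Small

/-!
# Strong versus link chromatic numbers: the exponents `x_{1,ℓ}` and `x_{2,ℓ}`

`IsBound t l x` (file `Pool/Agent/E8helper61/LK/Defs.lean`) says that for some constant `C` every
`t`-intersecting hypergraph `H` satisfies `χ(H, t + l) ≤ C * χ(H, t, l) ^ x`, where the value `0` of
`χ(H, t, l)` (no `t`-sets, or a single one) is read as `1`; the number `x_{t,l}` of the problem is
the least such `x`. For `q = 1` and for every prime power `q` we show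
`x_{1,l} ≥ q + 1` for all `l ≥ q + 2` and `x_{2,l} ≥ q ^ 2 + 2` for all `l ≥ 2 q + 2`.

With the known upper bound `x_{1,l} ≤ l - 1` this gives `x_{1,l} = l - 1` whenever `l - 2` is `1` or
a prime power, and with `x_{2,l} ≤ l (l - 1) / 2` the exact order of growth of `x_{2,l}`.

Construction: the lines `f` of a projective plane of order `q` (for `t = 2`: unions of a line of one
plane and a line of a second one), and the edges `f ∪ {x, y}`, where `x, y` are vectors with one
coordinate in `{1, …, M}` for each `f`, and `x, y` differ in the coordinate `f`.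
-/

set_option autoImplicit false

namespace Pool.Agent.Results.MP_5b9121_co.ProjectivePlanesH61

open H61LK

/-- For `q = 1` and every prime power `q`: `x_{1,l} ≥ q + 1` for all `l ≥ q + 2`, and
`x_{2,l} ≥ q ^ 2 + 2` for all `l ≥ 2 q + 2`. -/
theorem result (q : ℕ) (hq : q = 1 ∨ IsPrimePow q) :
    (∀ l : ℕ, q + 2 ≤ l → ∀ x : ℕ, IsBound 1 l x → q + 1 ≤ x) ∧
    (∀ l : ℕ, 2 * q + 2 ≤ l → ∀ x : ℕ, IsBound 2 l x → q ^ 2 + 2 ≤ x) := by
  have hq1 : 1 ≤ q := by
    rcases hq with rfl | hq
    · exact le_rfl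
    · exact hq.one_lt.le
  obtain ⟨h1, h2⟩ := t_SMALL t_GL t_PG q hq
  refine ⟨fun l hl x hx => ?_, fun l hl x hx => ?_⟩
  · have h := h1 l hl x hx
    by_contra hcon
    have : x ≤ q := by omega
    nlinarith
  · have h := h2 l hl x hx
    by_contra hcon
    have : x ≤ q ^ 2 + 1 := by omega
    have h3 : (q + 1) ^ 2 * x ≤ (q + 1) ^ 2 * (q ^ 2 + 1) := Nat.mul_le_mul_left _ this
    have h4 : (q ^ 2 + q + 1) ^ 2 = (q + 1) ^ 2 * (q ^ 2 + 1) + q ^ 2 := by ring
    have h5 : 0 < q ^ 2 := by positivity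
    omega

end Pool.Agent.Results.MP_5b9121_co.ProjectivePlanesH61
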